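import Pool.Agent.Helper75_LAT.FPI

/-!
# Properties in the calculus `FP`

`FPP m P`: the property `P` of `m` words is decided by a Boolean function of the calculus.
-/

set_option autoImplicit false

namespace Pool.Agent.LATM

open Turing Computability Pool.Agent.UT.Num Pool.Agent.H2XG Pool.Agent.PAR

variable {m : ℕ}

/-- properties which are decided in the calculus -/
def FPP (m : ℕ) (P : (Fin m → List K) → Prop) : Prop :=
  ∃ b : (Fin m → List K) → Bool, FPB m b ∧ ∀ ρ, b ρ = true ↔ P ρ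

theorem FPP.of {b : (Fin m → List K) → Bool} (h : FPB m b) : FPP m (fun ρ => b ρ = true) :=
  ⟨b, h, fun _ => Iff.rfl⟩

theorem FPP.congr {P Q : (Fin m → List K) → Prop} (h : FPP m P) (e : ∀ ρ, Q ρ ↔ P ρ) :
    FPP m Q := by
  obtain ⟨b, hb, h⟩ := h
  exact ⟨b, hb, fun ρ => (h ρ).trans (e ρ).symm⟩

theorem FPP.dec {P : (Fin m → List K) → Prop} (h : FPP m P) (d : ∀ ρ, Decidable (P ρ)) :
    FPB m (fun ρ => @decide (P ρ) (d ρ)) := by
  obtain ⟨b, hb, h⟩ := h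
  exact hb.congr fun ρ => by rw [Bool.eq_iff_iff, decide_eq_true_iff, h]

theorem FPP.decide' {P : (Fin m → List K) → Prop} {b : (Fin m → List K) → Bool} (h : FPP m P)
    (e : ∀ ρ, b ρ = true ↔ P ρ) : FPB m b := by
  obtain ⟨b', hb, h⟩ := h
  exact hb.congr fun ρ => by rw [Bool.eq_iff_iff, h, e]

theorem FPP.weak {P : (Fin m → List K) → Prop} (h : FPP m P) :
    FPP (m + 1) (fun σ => P (fun i => σ i.succ)) := by
  obtain ⟨b, hb, h⟩ := h
  exact ⟨_, FPB.weak hb, fun σ => h _⟩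

theorem FPP.and {P Q : (Fin m → List K) → Prop} (hP : FPP m P) (hQ : FPP m Q) :
    FPP m (fun ρ => P ρ ∧ Q ρ) := by
  obtain ⟨b, hb, h⟩ := hP
  obtain ⟨c, hc, h'⟩ := hQ
  exact ⟨_, hb.and hc, fun ρ => by rw [Bool.and_eq_true, h, h']⟩

theorem FPP.not {P : (Fin m → List K) → Prop} (hP : FPP m P) : FPP m (fun ρ => ¬ P ρ) := by
  obtain ⟨b, hb, h⟩ := hP
  exact ⟨_, hb.not, fun ρ => by
    show (!b ρ) = true ↔ ¬ P ρ
    rw [← h]
    simp⟩

theorem FPP.or {P Q : (Fin m → List K) → Prop} (hP : FPP m P) (hQ : FPP m Q) :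
    FPP m (fun ρ => P ρ ∨ Q ρ) :=
  (hP.not.and hQ.not).not.congr fun ρ => by tauto

theorem FPP.imp {P Q : (Fin m → List K) → Prop} (hP : FPP m P) (hQ : FPP m Q) :
    FPP m (fun ρ => P ρ → Q ρ) :=
  (hP.and hQ.not).not.congr fun ρ => by tauto

theorem FPP.all {n : (Fin m → List K) → ℕ} (hn : FPN m n) {P : ℕ → (Fin m → List K) → Prop}
    (h : FPP (m + 1) (fun σ => P (σ 0).length (fun i => σ i.succ))) :
    FPP m (fun ρ => ∀ i < n ρ, P i ρ) := by
  obtain ⟨b, hb, h⟩ := h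
  refine ⟨_, FPB.all hn (b := fun i ρ => b (nat0 i ρ)) (FPB.nat0 hb), fun ρ => ?_⟩
  rw [decide_eq_true_iff]
  refine forall_congr' fun i => imp_congr_right fun _ => ?_
  rw [h]
  simp only [LATM.nat0, Matrix.cons_val_zero, List.length_replicate, Matrix.cons_val_succ]

theorem FPP.ex {n : (Fin m → List K) → ℕ} (hn : FPN m n) {P : ℕ → (Fin m → List K) → Prop}
    (h : FPP (m + 1) (fun σ => P (σ 0).length (fun i => σ i.succ))) :
    FPP m (fun ρ => ∃ i < n ρ, P i ρ) :=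
  (FPP.all hn (P := fun i ρ => ¬ P i ρ) h.not).not.congr fun ρ => by
    push Not
    rfl

theorem FPP.ltN {e e' : (Fin m → List K) → ℕ} (h : FPN m e) (h' : FPN m e') :
    FPP m (fun ρ => e ρ < e' ρ) := ⟨_, FPB.ltN h h', fun ρ => by simp⟩

theorem FPP.leN {e e' : (Fin m → List K) → ℕ} (h : FPN m e) (h' : FPN m e') :
    FPP m (fun ρ => e ρ ≤ e' ρ) := ⟨_, FPB.leN h h', fun ρ => by simp⟩

theorem FPP.eqN {e e' : (Fin m → List K) → ℕ} (h : FPN m e) (h' : FPN m e') :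
    FPP m (fun ρ => e ρ = e' ρ) := ⟨_, FPB.eqN h h', fun ρ => by simp⟩

theorem FPP.ltI {f g : (Fin m → List K) → ℤ} (h : FPI m f) (h' : FPI m g) :
    FPP m (fun ρ => f ρ < g ρ) := ⟨_, FPB.ltI h h', fun ρ => by simp⟩

theorem FPP.leI {f g : (Fin m → List K) → ℤ} (h : FPI m f) (h' : FPI m g) :
    FPP m (fun ρ => f ρ ≤ g ρ) := ⟨_, FPB.leI h h', fun ρ => by simp⟩

theorem FPP.eqI {f g : (Fin m → List K) → ℤ} (h : FPI m f) (h' : FPI m g) :
    FPP m (fun ρ => f ρ = g ρ) := ⟨_, FPB.eqI h h', fun ρ => by simp⟩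

/-- integers defined by cases -/
theorem FPI.iteP {P : (Fin m → List K) → Prop} [∀ ρ, Decidable (P ρ)] (hP : FPP m P)
    {f g : (Fin m → List K) → ℤ} (hf : FPI m f) (hg : FPI m g) :
    FPI m (fun ρ => if P ρ then f ρ else g ρ) := by
  obtain ⟨b, hb, h⟩ := hP
  refine (FPI.ite hb hf hg).congr fun ρ => ?_
  by_cases hp : P ρ
  · rw [if_pos hp, if_pos ((h ρ).2 hp)]
  · rw [if_neg hp, if_neg (fun hb => hp ((h ρ).1 hb))]

/-- numbers in unary defined by cases -/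
theorem FPN.iteP {P : (Fin m → List K) → Prop} [∀ ρ, Decidable (P ρ)] (hP : FPP m P)
    {f g : (Fin m → List K) → ℕ} (hf : FPN m f) (hg : FPN m g) :
    FPN m (fun ρ => if P ρ then f ρ else g ρ) := by
  obtain ⟨b, hb, h⟩ := hP
  refine (FPN.ite hb hf hg).congr fun ρ => ?_
  by_cases hp : P ρ
  · rw [if_pos hp, if_pos ((h ρ).2 hp)]
  · rw [if_neg hp, if_neg (fun hb => hp ((h ρ).1 hb))]

end Pool.Agent.LATM
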