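import Pool.Agent.LAT.Defs
import Pool.Agent.Helper7_LAT.FPP

/-!
# Squad LAT, row MCH: the predicate of the machine is decidable in polynomial time
-/

set_option autoImplicit false

namespace Pool.Agent.LAT.H7

open Turing Computability Pool.Agent.UT.Num Pool.Agent.H2XG Pool.Agent.PAR
open Pool.Agent.LATM

variable {m : ℕ}

/-! ### Numbers in words -/

theorem ivalI {A : (Fin m → List K) → Word} (hA : FPW m A) :
    FPI m (fun ρ => LAT.ival (A ρ)) := by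
  refine ((FPI.ofV (FPV.ofW hA)).sub (FPI.ite (FPW.getD hA (hA.len.sub (FPN.const 1)))
    (FPI.pow2 hA.len) (FPI.const 0))).congr fun ρ => ?_
  unfold LAT.ival nval
  push_cast
  congr 1
  refine Finset.sum_congr rfl fun i _ => ?_
  rcases (A ρ).getD i false with _ | _ <;> simp

theorem numI {A : (Fin m → List K) → Word} (hA : FPW m A) {s l : (Fin m → List K) → ℕ}
    (hs : FPN m s) (hl : FPN m l) : FPI m (fun ρ => num (A ρ) (s ρ) (l ρ)) :=
  ivalI ((hA.drop hs).take hl)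

open Classical in
theorem lead_eq (x : Word) : lead x =
    ∑ i ∈ Finset.range x.length, if ∀ j < i + 1, x.getD j false = true then 1 else 0 := by
  unfold lead
  induction x with
  | nil => simp
  | cons b x ih =>
    rw [List.length_cons, Finset.sum_range_succ']
    rcases b with _ | _
    · rw [List.takeWhile_cons_of_neg (by simp), List.length_nil, Finset.sum_eq_zero]
      · rw [if_neg]
        intro h
        have := h 0 (by omega)
        simp at this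
      · intro i _
        rw [if_neg]
        intro h
        have := h 0 (by omega)
        simp at this
    · rw [List.takeWhile_cons_of_pos (by simp), List.length_cons, ih]
      congr 1
      · refine Finset.sum_congr rfl fun i _ => ?_
        refine if_congr ?_ rfl rfl
        constructor
        · intro h j hj
          rcases j with _ | j
          · simp
          · rw [List.getD_cons_succ]
            exact h j (by omega)
        · intro h j hj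
          have := h (j + 1) (by omega)
          rwa [List.getD_cons_succ] at this

theorem leadN {A : (Fin m → List K) → Word} (hA : FPW m A) : FPN m (fun ρ => lead (A ρ)) := by
  classical
  refine (FPN.sum hA.len (f := fun i ρ => if ∀ j < i + 1, (A ρ).getD j false = true then 1 else 0)
    (FPN.iteP (P := fun σ => ∀ j < (σ 0).length + 1,
      (A (fun i => σ i.succ)).getD j false = true)
      (FPP.all (FPN.v0.add (FPN.const 1)) (FPP.of (FPW.getD hA.weak.weak FPN.v0)))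
      (FPN.const 1) (FPN.const 0))).congr fun ρ => ?_
  rw [lead_eq]

/-! ### Reading of the instance -/

theorem pnN {A : (Fin m → List K) → Word} (hA : FPW m A) : FPN m (fun ρ => pn (A ρ)) := leadN hA

theorem x1W {A : (Fin m → List K) → Word} (hA : FPW m A) : FPW m (fun ρ => x1 (A ρ)) :=
  hA.drop ((pnN hA).add (FPN.const 1))

theorem pmN {A : (Fin m → List K) → Word} (hA : FPW m A) : FPN m (fun ρ => pm (A ρ)) :=
  leadN (x1W hA)

theorem x2W {A : (Fin m → List K) → Word} (hA : FPW m A) : FPW m (fun ρ => x2 (A ρ)) :=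
  (x1W hA).drop ((pmN hA).add (FPN.const 1))

theorem pwN {A : (Fin m → List K) → Word} (hA : FPW m A) : FPN m (fun ρ => pw (A ρ)) :=
  leadN (x2W hA)

theorem x3W {A : (Fin m → List K) → Word} (hA : FPW m A) : FPW m (fun ρ => x3 (A ρ)) :=
  (x2W hA).drop ((pwN hA).add (FPN.const 1))

theorem paI {A : (Fin m → List K) → Word} (hA : FPW m A) {i j : (Fin m → List K) → ℕ}
    (hi : FPN m i) (hj : FPN m j) : FPI m (fun ρ => pa (A ρ) (i ρ) (j ρ)) :=
  numI (x3W hA) (((hi.mul (pmN hA)).add hj).mul ((pwN hA).add (FPN.const 1)))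
    ((pwN hA).add (FPN.const 1))

theorem pDI {A : (Fin m → List K) → Word} (hA : FPW m A) : FPI m (fun ρ => pD (A ρ)) :=
  numI (x3W hA) (((pnN hA).mul (pmN hA)).mul ((pwN hA).add (FPN.const 1)))
    ((pwN hA).add (FPN.const 1))

theorem widN {A : (Fin m → List K) → Word} (hA : FPW m A) : FPN m (fun ρ => wid (A ρ)) :=
  (hA.len.add (FPN.const 2)).pow 8

theorem bszN {A : (Fin m → List K) → Word} (hA : FPW m A) : FPN m (fun ρ => bsz (A ρ)) :=
  ((((FPN.const 3).mul (pmN hA)).add (FPN.const 1)).mul (pmN hA)).mul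
    ((widN hA).add (FPN.const 1))

/-! ### Reading of the certificate -/

section terms

variable {A B : (Fin m → List K) → Word} {t r j i l : (Fin m → List K) → ℕ}

theorem entI (hA : FPW m A) (hB : FPW m B) (ht : FPN m t) (hr : FPN m r) (hj : FPN m j) :
    FPI m (fun ρ => ent (A ρ) (B ρ) (t ρ) (r ρ) (j ρ)) :=
  numI hB ((((((ht.mul (((FPN.const 3).mul (pmN hA)).add (FPN.const 1))).add hr).mul
    (pmN hA)).add hj).mul ((widN hA).add (FPN.const 1)))) ((widN hA).add (FPN.const 1))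

theorem gmeI (hA : FPW m A) (hB : FPW m B) (ht : FPN m t) (hi : FPN m i) (hl : FPN m l) :
    FPI m (fun ρ => gme (pm (A ρ)) (ent (A ρ) (B ρ)) (t ρ) (i ρ) (l ρ)) := by
  unfold gme
  refine (FPI.sum (pmN hA) (f := fun j ρ => ent (A ρ) (B ρ) (t ρ) (i ρ) j *
    ent (A ρ) (B ρ) (t ρ) (l ρ) j) ?_).add ?_
  · exact (entI hA.weak hB.weak ht.weak hi.weak FPN.v0).mul
      (entI hA.weak hB.weak ht.weak hl.weak FPN.v0)
  · exact FPI.iteP ((FPP.eqN hi hl).and (FPP.eqI (entI hA hB ht hi hi) (FPI.const 0)))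
      (FPI.const 1) (FPI.const 0)

theorem ygeI (hA : FPW m A) (hB : FPW m B) (ht : FPN m t) (hi : FPN m i) (hl : FPN m l) :
    FPI m (fun ρ => yge (pm (A ρ)) (ent (A ρ) (B ρ)) (t ρ) (i ρ) (l ρ)) := by
  unfold yge
  refine FPI.sum (pmN hA) (f := fun s ρ => ent (A ρ) (B ρ) (t ρ) (pm (A ρ) + i ρ) s *
    gme (pm (A ρ)) (ent (A ρ) (B ρ)) (t ρ) s (l ρ)) ?_
  exact (entI hA.weak hB.weak ht.weak ((pmN hA.weak).add hi.weak) FPN.v0).mul
    (gmeI hA.weak hB.weak ht.weak FPN.v0 hl.weak)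

/-- the factor `D` or `1` -/
theorem facI (hA : FPW m A) (hB : FPW m B) (ht : FPN m t) (hi : FPN m i) :
    FPI m (fun ρ => if 0 < ent (A ρ) (B ρ) (t ρ) (i ρ) (i ρ) then pD (A ρ) else 1) :=
  FPI.iteP (FPP.ltI (FPI.const 0) (entI hA hB ht hi hi)) (pDI hA) (FPI.const 1)

end terms

/-! ### The check -/

section check

variable {A B : (Fin m → List K) → Word} {t k : (Fin m → List K) → ℕ}

theorem c_tri (hA : FPW m A) (hB : FPW m B) (ht : FPN m t) :
    FPP m (fun ρ => ∀ j < pm (A ρ), ∀ i < j, ent (A ρ) (B ρ) (t ρ) i j = 0) :=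
  FPP.all (pmN hA) (FPP.all FPN.v0 (FPP.eqI (entI hA.weak.weak hB.weak.weak ht.weak.weak
    FPN.v0 FPN.v1) (FPI.const 0)))

theorem c_diag (hA : FPW m A) (hB : FPW m B) (ht : FPN m t) :
    FPP m (fun ρ => ∀ i < pm (A ρ), 0 ≤ ent (A ρ) (B ρ) (t ρ) i i) :=
  FPP.all (pmN hA) (FPP.leI (FPI.const 0) (entI hA.weak hB.weak ht.weak FPN.v0 FPN.v0))

theorem c_zero (hA : FPW m A) (hB : FPW m B) (ht : FPN m t) :
    FPP m (fun ρ => ∀ i < pm (A ρ), ∀ j < pm (A ρ),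
      ent (A ρ) (B ρ) (t ρ) i i = 0 → ent (A ρ) (B ρ) (t ρ) i j = 0) :=
  FPP.all (pmN hA) (FPP.all (pmN hA.weak) (FPP.imp
    (FPP.eqI (entI hA.weak.weak hB.weak.weak ht.weak.weak FPN.v1 FPN.v1) (FPI.const 0))
    (FPP.eqI (entI hA.weak.weak hB.weak.weak ht.weak.weak FPN.v1 FPN.v0) (FPI.const 0))))

theorem c_red (hA : FPW m A) (hB : FPW m B) (ht : FPN m t) :
    FPP m (fun ρ => ∀ i < pm (A ρ), ∀ j < i, 0 < ent (A ρ) (B ρ) (t ρ) j j →
      0 ≤ ent (A ρ) (B ρ) (t ρ) i j ∧ ent (A ρ) (B ρ) (t ρ) i j < ent (A ρ) (B ρ) (t ρ) j j) :=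
  FPP.all (pmN hA) (FPP.all FPN.v0 (FPP.imp
    (FPP.ltI (FPI.const 0) (entI hA.weak.weak hB.weak.weak ht.weak.weak FPN.v0 FPN.v0))
    ((FPP.leI (FPI.const 0) (entI hA.weak.weak hB.weak.weak ht.weak.weak FPN.v1 FPN.v0)).and
      (FPP.ltI (entI hA.weak.weak hB.weak.weak ht.weak.weak FPN.v1 FPN.v0)
        (entI hA.weak.weak hB.weak.weak ht.weak.weak FPN.v0 FPN.v0)))))

theorem c_ne (hA : FPW m A) (hB : FPW m B) (ht : FPN m t) :
    FPP m (fun ρ => ∃ i < pm (A ρ), 0 < ent (A ρ) (B ρ) (t ρ) i i) :=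
  FPP.ex (pmN hA) (FPP.ltI (FPI.const 0) (entI hA.weak hB.weak ht.weak FPN.v0 FPN.v0))

theorem c_ylow (hA : FPW m A) (hB : FPW m B) (ht : FPN m t) :
    FPP m (fun ρ => ∀ j < pm (A ρ), ∀ i < j,
      ent (A ρ) (B ρ) (t ρ) (pm (A ρ) + i) j = 0) :=
  FPP.all (pmN hA) (FPP.all FPN.v0 (FPP.eqI (entI hA.weak.weak hB.weak.weak ht.weak.weak
    ((pmN hA.weak.weak).add FPN.v0) FPN.v1) (FPI.const 0)))

theorem c_ytri (hA : FPW m A) (hB : FPW m B) (ht : FPN m t) :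
    FPP m (fun ρ => ∀ i < pm (A ρ), ∀ j < i,
      yge (pm (A ρ)) (ent (A ρ) (B ρ)) (t ρ) i j = 0) :=
  FPP.all (pmN hA) (FPP.all FPN.v0 (FPP.eqI (ygeI hA.weak.weak hB.weak.weak ht.weak.weak
    FPN.v1 FPN.v0) (FPI.const 0)))

theorem c_yone (hA : FPW m A) (hB : FPW m B) (ht : FPN m t) :
    FPP m (fun ρ => 0 < pm (A ρ) → ent (A ρ) (B ρ) (t ρ) (pm (A ρ)) 0 = 1) :=
  FPP.imp (FPP.ltN (FPN.const 0) (pmN hA))
    (FPP.eqI (entI hA hB ht (pmN hA) (FPN.const 0)) (FPI.const 1))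

theorem c_ystep (hA : FPW m A) (hB : FPW m B) (ht : FPN m t) :
    FPP m (fun ρ => ∀ i < pm (A ρ), i + 1 < pm (A ρ) →
      ent (A ρ) (B ρ) (t ρ) (pm (A ρ) + (i + 1)) (i + 1) =
        yge (pm (A ρ)) (ent (A ρ) (B ρ)) (t ρ) i i) :=
  FPP.all (pmN hA) (FPP.imp (FPP.ltN (FPN.v0.add (FPN.const 1)) (pmN hA.weak))
    (FPP.eqI (entI hA.weak hB.weak ht.weak ((pmN hA.weak).add (FPN.v0.add (FPN.const 1)))
      (FPN.v0.add (FPN.const 1))) (ygeI hA.weak hB.weak ht.weak FPN.v0 FPN.v0)))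

theorem c_pone (hA : FPW m A) (hB : FPW m B) (ht : FPN m t) :
    FPP m (fun ρ => 0 < pm (A ρ) → ent (A ρ) (B ρ) (t ρ) (3 * pm (A ρ)) 0 = 1) :=
  FPP.imp (FPP.ltN (FPN.const 0) (pmN hA))
    (FPP.eqI (entI hA hB ht ((FPN.const 3).mul (pmN hA)) (FPN.const 0)) (FPI.const 1))

theorem c_pstep (hA : FPW m A) (hB : FPW m B) (ht : FPN m t) :
    FPP m (fun ρ => ∀ i < pm (A ρ), i + 1 < pm (A ρ) →
      ent (A ρ) (B ρ) (t ρ) (3 * pm (A ρ)) (i + 1) =
        ent (A ρ) (B ρ) (t ρ) (3 * pm (A ρ)) i *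
          if 0 < ent (A ρ) (B ρ) (t ρ) i i then pD (A ρ) else 1) :=
  FPP.all (pmN hA) (FPP.imp (FPP.ltN (FPN.v0.add (FPN.const 1)) (pmN hA.weak))
    (FPP.eqI (entI hA.weak hB.weak ht.weak ((FPN.const 3).mul (pmN hA.weak))
      (FPN.v0.add (FPN.const 1))) ((entI hA.weak hB.weak ht.weak
        ((FPN.const 3).mul (pmN hA.weak)) FPN.v0).mul (facI hA.weak hB.weak ht.weak FPN.v0))))

theorem c_det (hA : FPW m A) (hB : FPW m B) (ht : FPN m t) :
    FPP m (fun ρ => ∀ i < pm (A ρ), i + 1 = pm (A ρ) →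
      yge (pm (A ρ)) (ent (A ρ) (B ρ)) (t ρ) i i ≤
        ent (A ρ) (B ρ) (t ρ) (3 * pm (A ρ)) i *
          if 0 < ent (A ρ) (B ρ) (t ρ) i i then pD (A ρ) else 1) :=
  FPP.all (pmN hA) (FPP.imp (FPP.eqN (FPN.v0.add (FPN.const 1)) (pmN hA.weak))
    (FPP.leI (ygeI hA.weak hB.weak ht.weak FPN.v0 FPN.v0) ((entI hA.weak hB.weak ht.weak
        ((FPN.const 3).mul (pmN hA.weak)) FPN.v0).mul (facI hA.weak hB.weak ht.weak FPN.v0))))

theorem c_link (hA : FPW m A) (hB : FPW m B) (ht : FPN m t) (hk : FPN m k) :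
    FPP m (fun ρ => t ρ + 1 < k ρ → ∀ i < pm (A ρ), ∀ j < pm (A ρ),
      ∑ l ∈ Finset.range (pm (A ρ)), ent (A ρ) (B ρ) (t ρ) (2 * pm (A ρ) + i) l *
        ent (A ρ) (B ρ) (t ρ + 1) l j = ent (A ρ) (B ρ) (t ρ) i j) := by
  refine FPP.imp (FPP.ltN (ht.add (FPN.const 1)) hk) (FPP.all (pmN hA)
    (FPP.all (pmN hA.weak) (FPP.eqI ?_ (entI hA.weak.weak hB.weak.weak ht.weak.weak
      FPN.v1 FPN.v0))))
  refine FPI.sum (pmN hA.weak.weak) (f := fun l σ => ent (A fun i => σ i.succ.succ)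
    (B fun i => σ i.succ.succ) (t fun i => σ i.succ.succ)
    (2 * pm (A fun i => σ i.succ.succ) + (σ 1).length) l *
    ent (A fun i => σ i.succ.succ) (B fun i => σ i.succ.succ)
      ((t fun i => σ i.succ.succ) + 1) l (σ 0).length) ?_
  exact (entI hA.weak.weak.weak hB.weak.weak.weak ht.weak.weak.weak
    (((FPN.const 2).mul (pmN hA.weak.weak.weak)).add FPN.v1.weak) FPN.v0).mul
    (entI hA.weak.weak.weak hB.weak.weak.weak (ht.weak.weak.weak.add (FPN.const 1)) FPN.v0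
      FPN.v1)

theorem c_linkz (hA : FPW m A) (hB : FPW m B) (ht : FPN m t) (hk : FPN m k) :
    FPP m (fun ρ => t ρ + 1 < k ρ → ∀ i < pm (A ρ), ∀ l < pm (A ρ),
      ent (A ρ) (B ρ) (t ρ + 1) l l = 0 → ent (A ρ) (B ρ) (t ρ) (2 * pm (A ρ) + i) l = 0) :=
  FPP.imp (FPP.ltN (ht.add (FPN.const 1)) hk) (FPP.all (pmN hA)
    (FPP.all (pmN hA.weak) (FPP.imp
      (FPP.eqI (entI hA.weak.weak hB.weak.weak (ht.weak.weak.add (FPN.const 1)) FPN.v0 FPN.v0)
        (FPI.const 0))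
      (FPP.eqI (entI hA.weak.weak hB.weak.weak ht.weak.weak
        (((FPN.const 2).mul (pmN hA.weak.weak)).add FPN.v1) FPN.v0) (FPI.const 0)))))

theorem c_last (hA : FPW m A) (hB : FPW m B) (ht : FPN m t) (hk : FPN m k) :
    FPP m (fun ρ => t ρ + 1 = k ρ → ∀ i < pm (A ρ), ∀ j < pm (A ρ),
      ∑ l ∈ Finset.range (pn (A ρ)), ent (A ρ) (B ρ) (t ρ) (2 * pm (A ρ) + i) l *
        pa (A ρ) l j = ent (A ρ) (B ρ) (t ρ) i j) := by
  refine FPP.imp (FPP.eqN (ht.add (FPN.const 1)) hk) (FPP.all (pmN hA)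
    (FPP.all (pmN hA.weak) (FPP.eqI ?_ (entI hA.weak.weak hB.weak.weak ht.weak.weak
      FPN.v1 FPN.v0))))
  refine FPI.sum (pnN hA.weak.weak) (f := fun l σ => ent (A fun i => σ i.succ.succ)
    (B fun i => σ i.succ.succ) (t fun i => σ i.succ.succ)
    (2 * pm (A fun i => σ i.succ.succ) + (σ 1).length) l *
    pa (A fun i => σ i.succ.succ) l (σ 0).length) ?_
  exact (entI hA.weak.weak.weak hB.weak.weak.weak ht.weak.weak.weak
    (((FPN.const 2).mul (pmN hA.weak.weak.weak)).add FPN.v1.weak) FPN.v0).mul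
    (paI hA.weak.weak.weak FPN.v0 FPN.v1)

theorem c_lastz (hA : FPW m A) (hB : FPW m B) (ht : FPN m t) (hk : FPN m k) :
    FPP m (fun ρ => t ρ + 1 = k ρ → ∀ i < pm (A ρ), ∀ l < pm (A ρ),
      pn (A ρ) ≤ l → ent (A ρ) (B ρ) (t ρ) (2 * pm (A ρ) + i) l = 0) :=
  FPP.imp (FPP.eqN (ht.add (FPN.const 1)) hk) (FPP.all (pmN hA)
    (FPP.all (pmN hA.weak) (FPP.imp (FPP.leN (pnN hA.weak.weak) FPN.v0)
      (FPP.eqI (entI hA.weak.weak hB.weak.weak ht.weak.weak
        (((FPN.const 2).mul (pmN hA.weak.weak)).add FPN.v1) FPN.v0) (FPI.const 0)))))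

theorem c_strict (hA : FPW m A) (hB : FPW m B) (ht : FPN m t) (hk : FPN m k) :
    FPP m (fun ρ => t ρ + 1 < k ρ → ∃ i < pm (A ρ), ∃ j < pm (A ρ),
      ent (A ρ) (B ρ) (t ρ) i j ≠ ent (A ρ) (B ρ) (t ρ + 1) i j) :=
  FPP.imp (FPP.ltN (ht.add (FPN.const 1)) hk) (FPP.ex (pmN hA)
    (FPP.ex (pmN hA.weak) (FPP.not (FPP.eqI
      (entI hA.weak.weak hB.weak.weak ht.weak.weak FPN.v1 FPN.v0)
      (entI hA.weak.weak hB.weak.weak (ht.weak.weak.add (FPN.const 1)) FPN.v1 FPN.v0)))))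

end check

theorem chk_iff (n m : ℕ) (D : ℤ) (a : ℕ → ℕ → ℤ) (k : ℕ) (e : ℕ → ℕ → ℕ → ℤ) :
    Chk n m D a k e ↔ ∀ t < k,
      (∀ j < m, ∀ i < j, e t i j = 0) ∧
      (∀ i < m, 0 ≤ e t i i) ∧
      (∀ i < m, ∀ j < m, e t i i = 0 → e t i j = 0) ∧
      (∀ i < m, ∀ j < i, 0 < e t j j → 0 ≤ e t i j ∧ e t i j < e t j j) ∧
      (∃ i < m, 0 < e t i i) ∧
      (∀ j < m, ∀ i < j, e t (m + i) j = 0) ∧
      (∀ i < m, ∀ j < i, yge m e t i j = 0) ∧
      (0 < m → e t m 0 = 1) ∧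
      (∀ i < m, i + 1 < m → e t (m + (i + 1)) (i + 1) = yge m e t i i) ∧
      (0 < m → e t (3 * m) 0 = 1) ∧
      (∀ i < m, i + 1 < m →
        e t (3 * m) (i + 1) = e t (3 * m) i * if 0 < e t i i then D else 1) ∧
      (∀ i < m, i + 1 = m →
        yge m e t i i ≤ e t (3 * m) i * if 0 < e t i i then D else 1) ∧
      (t + 1 < k → ∀ i < m, ∀ j < m,
        ∑ l ∈ Finset.range m, e t (2 * m + i) l * e (t + 1) l j = e t i j) ∧
      (t + 1 < k → ∀ i < m, ∀ l < m, e (t + 1) l l = 0 → e t (2 * m + i) l = 0) ∧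
      (t + 1 = k → ∀ i < m, ∀ j < m,
        ∑ l ∈ Finset.range n, e t (2 * m + i) l * a l j = e t i j) ∧
      (t + 1 = k → ∀ i < m, ∀ l < m, n ≤ l → e t (2 * m + i) l = 0) ∧
      (t + 1 < k → ∃ i < m, ∃ j < m, e t i j ≠ e (t + 1) i j) := by
  constructor
  · intro h t ht
    exact ⟨h.tri t ht, h.diag t ht, h.zero t ht, h.red t ht, h.ne t ht, h.ylow t ht,
      h.ytri t ht, h.yone t ht, h.ystep t ht, h.pone t ht, h.pstep t ht, h.det t ht,
      h.link t ht, h.linkz t ht, h.last t ht, h.lastz t ht, h.strict t ht⟩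
  · intro h
    exact ⟨fun t ht => (h t ht).1, fun t ht => (h t ht).2.1, fun t ht => (h t ht).2.2.1,
      fun t ht => (h t ht).2.2.2.1, fun t ht => (h t ht).2.2.2.2.1,
      fun t ht => (h t ht).2.2.2.2.2.1, fun t ht => (h t ht).2.2.2.2.2.2.1,
      fun t ht => (h t ht).2.2.2.2.2.2.2.1, fun t ht => (h t ht).2.2.2.2.2.2.2.2.1,
      fun t ht => (h t ht).2.2.2.2.2.2.2.2.2.1, fun t ht => (h t ht).2.2.2.2.2.2.2.2.2.2.1,
      fun t ht => (h t ht).2.2.2.2.2.2.2.2.2.2.2.1,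
      fun t ht => (h t ht).2.2.2.2.2.2.2.2.2.2.2.2.1,
      fun t ht => (h t ht).2.2.2.2.2.2.2.2.2.2.2.2.2.1,
      fun t ht => (h t ht).2.2.2.2.2.2.2.2.2.2.2.2.2.2.1,
      fun t ht => (h t ht).2.2.2.2.2.2.2.2.2.2.2.2.2.2.2.1,
      fun t ht => (h t ht).2.2.2.2.2.2.2.2.2.2.2.2.2.2.2.2⟩

theorem chkP {A B : (Fin m → List K) → Word} (hA : FPW m A) (hB : FPW m B)
    {k : (Fin m → List K) → ℕ} (hk : FPN m k) :
    FPP m (fun ρ => Chk (pn (A ρ)) (pm (A ρ)) (pD (A ρ)) (pa (A ρ)) (k ρ) (ent (A ρ) (B ρ))) := by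
  refine FPP.congr ?_ fun ρ => chk_iff _ _ _ _ _ _
  have hA' := hA.weak
  have hB' := hB.weak
  have ht : FPN (C := K) (m + 1) (fun σ => (σ 0).length) := FPN.v0
  have hk' := hk.weak
  exact FPP.all hk ((c_tri hA' hB' ht).and ((c_diag hA' hB' ht).and ((c_zero hA' hB' ht).and
    ((c_red hA' hB' ht).and ((c_ne hA' hB' ht).and ((c_ylow hA' hB' ht).and
    ((c_ytri hA' hB' ht).and ((c_yone hA' hB' ht).and ((c_ystep hA' hB' ht).and
    ((c_pone hA' hB' ht).and ((c_pstep hA' hB' ht).and ((c_det hA' hB' ht).and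
    ((c_link hA' hB' ht hk').and ((c_linkz hA' hB' ht hk').and ((c_last hA' hB' ht hk').and
    ((c_lastz hA' hB' ht hk').and (c_strict hA' hB' ht hk')))))))))))))))))

/-- **Row MCH**: the predicate of the machine is decidable in polynomial time. -/
theorem mch : MchStmt := by
  classical
  have h : PolyPair (fun z => (fun x y => Vb (x, y)) z.1 z.2) := by
    refine polyPair_of' (g := fun x y => Vb (x, y)) fun m A B hA hB => ?_
    have hk : FPN m (fun ρ => (B ρ).length / bsz (A ρ)) := hB.len.div (bszN hA)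
    have h1 : FPP m (fun ρ => Vp (A ρ) (B ρ)) :=
      (FPP.ltN (FPN.const 0) hk).and ((FPP.eqN hB.len (hk.mul (bszN hA))).and
        ((FPP.leN (pnN hA) (pmN hA)).and (chkP hA hB hk)))
    exact FPP.decide' h1 fun ρ => by simp [Vb]
  exact h

end Pool.Agent.LAT.H7
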