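import Pool.Agent.LAT.DefsC
import Pool.Agent.Helper7_LAT.MCH

/-!
# Squad LAT, row MCC: the predicate of the machine of part 2 is decidable in polynomial time
-/

set_option autoImplicit false

namespace Pool.Agent.LAT.H7

open Turing Computability Pool.Agent.UT.Num Pool.Agent.H2XG Pool.Agent.PAR
open Pool.Agent.LATM

variable {m : ℕ}

section terms

variable {A B : (Fin m → List K) → Word} {t c r j i l n k : (Fin m → List K) → ℕ}

theorem mN (hA : FPW m A) : FPN m (fun ρ => pm (A ρ) - 1) := (pmN hA).sub (FPN.const 1)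

theorem dI (hA : FPW m A) : FPI m (fun ρ => 4 * pD (A ρ)) := (FPI.const 4).mul (pDI hA)

/-- the factor `4 D` or `1` -/
theorem fac4I (hA : FPW m A) (hB : FPW m B) (ht : FPN m t) (hi : FPN m i) :
    FPI m (fun ρ => if 0 < ent (A ρ) (B ρ) (t ρ) (i ρ) (i ρ) then 4 * pD (A ρ) else 1) :=
  FPI.iteP (FPP.ltI (FPI.const 0) (entI hA hB ht hi hi)) (dI hA) (FPI.const 1)

theorem dteI (hA : FPW m A) (hB : FPW m B) (ht : FPN m t) :
    FPI m (fun ρ => dte (pm (A ρ)) (ent (A ρ) (B ρ)) (t ρ)) :=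
  ygeI hA hB ht (mN hA) (mN hA)

theorem pteI (hA : FPW m A) (hB : FPW m B) (ht : FPN m t) :
    FPI m (fun ρ => pte (pm (A ρ)) (pD (A ρ)) (ent (A ρ) (B ρ)) (t ρ)) :=
  (entI hA hB ht ((FPN.const 3).mul (pmN hA)) (mN hA)).mul (fac4I hA hB ht (mN hA))

/-- the coordinates of the target minus the row `0` of the tail -/
theorem gI (hA : FPW m A) (hB : FPW m B) (hk : FPN m k) (hj : FPN m j) :
    FPI m (fun ρ => pa (A ρ) (pn (A ρ) - 1) (j ρ) - ent (A ρ) (B ρ) (k ρ) 0 (j ρ)) :=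
  (paI hA ((pnN hA).sub (FPN.const 1)) hj).sub (entI hA hB hk (FPN.const 0) hj)

theorem bgI (hA : FPW m A) (hB : FPW m B) (hk : FPN m k) (hc : FPN m c) (hi : FPN m i) :
    FPI m (fun ρ => ∑ j ∈ Finset.range (pm (A ρ)), ent (A ρ) (B ρ) (c ρ) (i ρ) j *
      (pa (A ρ) (pn (A ρ) - 1) j - ent (A ρ) (B ρ) (k ρ) 0 j)) :=
  FPI.sum (pmN hA) (f := fun j ρ => ent (A ρ) (B ρ) (c ρ) (i ρ) j *
      (pa (A ρ) (pn (A ρ) - 1) j - ent (A ρ) (B ρ) (k ρ) 0 j))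
    ((entI hA.weak hB.weak hc.weak hi.weak FPN.v0).mul (gI hA.weak hB.weak hk.weak FPN.v0))

theorem ggI (hA : FPW m A) (hB : FPW m B) (hk : FPN m k) :
    FPI m (fun ρ => ∑ j ∈ Finset.range (pm (A ρ)),
      (pa (A ρ) (pn (A ρ) - 1) j - ent (A ρ) (B ρ) (k ρ) 0 j) *
      (pa (A ρ) (pn (A ρ) - 1) j - ent (A ρ) (B ρ) (k ρ) 0 j)) :=
  FPI.sum (pmN hA) (f := fun j ρ => (pa (A ρ) (pn (A ρ) - 1) j - ent (A ρ) (B ρ) (k ρ) 0 j) *
      (pa (A ρ) (pn (A ρ) - 1) j - ent (A ρ) (B ρ) (k ρ) 0 j))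
    ((gI hA.weak hB.weak hk.weak FPN.v0).mul (gI hA.weak hB.weak hk.weak FPN.v0))

theorem fbgI (hA : FPW m A) (hB : FPW m B) (hk : FPN m k) (hc : FPN m c) :
    FPI m (fun ρ => ∑ i ∈ Finset.range (pm (A ρ)), ent (A ρ) (B ρ) (k ρ) 2 i *
      ∑ j ∈ Finset.range (pm (A ρ)), ent (A ρ) (B ρ) (c ρ) i j *
        (pa (A ρ) (pn (A ρ) - 1) j - ent (A ρ) (B ρ) (k ρ) 0 j)) :=
  FPI.sum (pmN hA) (f := fun i ρ => ent (A ρ) (B ρ) (k ρ) 2 i *
      ∑ j ∈ Finset.range (pm (A ρ)), ent (A ρ) (B ρ) (c ρ) i j *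
        (pa (A ρ) (pn (A ρ) - 1) j - ent (A ρ) (B ρ) (k ρ) 0 j))
    ((entI hA.weak hB.weak hk.weak (FPN.const 2) FPN.v0).mul
      (bgI hA.weak hB.weak hk.weak hc.weak FPN.v0))

theorem solI (hA : FPW m A) (hB : FPW m B) (hk : FPN m k) (hc : FPN m c) (hi : FPN m i) :
    FPI m (fun ρ => ∑ l ∈ Finset.range (pm (A ρ)), ent (A ρ) (B ρ) (k ρ) 2 l *
      gme (pm (A ρ)) (ent (A ρ) (B ρ)) (c ρ) l (i ρ)) :=
  FPI.sum (pmN hA) (f := fun l ρ => ent (A ρ) (B ρ) (k ρ) 2 l *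
      gme (pm (A ρ)) (ent (A ρ) (B ρ)) (c ρ) l (i ρ))
    ((entI hA.weak hB.weak hk.weak (FPN.const 2) FPN.v0).mul
      (gmeI hA.weak hB.weak hc.weak FPN.v0 hi.weak))

end terms

/-! ### The marked block -/

section mark

variable {A B : (Fin m → List K) → Word} {t c n k : (Fin m → List K) → ℕ}

theorem mark_iff (m : ℕ) (d : ℤ) (v : ℕ → ℤ) (k : ℕ) (e : ℕ → ℕ → ℕ → ℤ) (f : ℕ → ℕ → ℤ)
    (c : ℕ) : Mark m d v k e f c ↔
      f 3 0 = (c : ℤ) ∧ dte m e c ≤ pte m d e c ∧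
      (∀ t < k, t < c → pte m d e c * dte m e t < pte m d e t * dte m e c) ∧
      (∀ t < k, c < t → pte m d e c * dte m e t ≤ pte m d e t * dte m e c) ∧
      (∀ j < m, 0 < e c j j → 0 ≤ f 0 j ∧ f 0 j < e c j j) ∧
      (∀ i < m, ∑ l ∈ Finset.range m, f 2 l * gme m e c l i =
        -(dte m e c) * ∑ j ∈ Finset.range m, e c i j * (v j - f 0 j)) ∧
      (∑ i ∈ Finset.range m, f 2 i * ∑ j ∈ Finset.range m, e c i j * (v j - f 0 j)) +
        dte m e c * ∑ j ∈ Finset.range m, (v j - f 0 j) * (v j - f 0 j) ≤ d * dte m e c :=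
  ⟨fun h => ⟨h.cell, h.dp, h.lt, h.le, h.red, h.sol, h.dist⟩,
    fun ⟨h1, h2, h3, h4, h5, h6, h7⟩ => ⟨h1, h2, h3, h4, h5, h6, h7⟩⟩

theorem markP (hA : FPW m A) (hB : FPW m B) (hk : FPN m k) (hc : FPN m c) :
    FPP m (fun ρ => Mark (pm (A ρ)) (pD (A ρ)) (pa (A ρ) (pn (A ρ) - 1)) (k ρ)
      (ent (A ρ) (B ρ)) (ent (A ρ) (B ρ) (k ρ)) (c ρ)) := by
  refine FPP.congr ?_ fun ρ => mark_iff _ _ _ _ _ _ _
  refine (FPP.eqI (entI hA hB hk (FPN.const 3) (FPN.const 0)) (FPI.ofN hc)).and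
    ((FPP.leI (dteI hA hB hc) (pteI hA hB hc)).and (FPP.and ?_ (FPP.and ?_ (FPP.and ?_
    (FPP.and ?_ ?_)))))
  · exact FPP.all hk (FPP.imp (FPP.ltN FPN.v0 hc.weak)
      (FPP.ltI ((pteI hA.weak hB.weak hc.weak).mul (dteI hA.weak hB.weak FPN.v0))
        ((pteI hA.weak hB.weak FPN.v0).mul (dteI hA.weak hB.weak hc.weak))))
  · exact FPP.all hk (FPP.imp (FPP.ltN hc.weak FPN.v0)
      (FPP.leI ((pteI hA.weak hB.weak hc.weak).mul (dteI hA.weak hB.weak FPN.v0))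
        ((pteI hA.weak hB.weak FPN.v0).mul (dteI hA.weak hB.weak hc.weak))))
  · exact FPP.all (pmN hA) (FPP.imp (FPP.ltI (FPI.const 0)
      (entI hA.weak hB.weak hc.weak FPN.v0 FPN.v0))
      ((FPP.leI (FPI.const 0) (entI hA.weak hB.weak hk.weak (FPN.const 0) FPN.v0)).and
        (FPP.ltI (entI hA.weak hB.weak hk.weak (FPN.const 0) FPN.v0)
          (entI hA.weak hB.weak hc.weak FPN.v0 FPN.v0))))
  · exact FPP.all (pmN hA) (FPP.eqI (solI hA.weak hB.weak hk.weak hc.weak FPN.v0)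
      ((dteI hA.weak hB.weak hc.weak).neg.mul (bgI hA.weak hB.weak hk.weak hc.weak FPN.v0)))
  · exact FPP.leI ((fbgI hA hB hk hc).add ((dteI hA hB hc).mul (ggI hA hB hk)))
      ((pDI hA).mul (dteI hA hB hc))

end mark

/-! ### The check -/

section check

variable {A B : (Fin m → List K) → Word} {t c n k : (Fin m → List K) → ℕ}

theorem d_yone (hA : FPW m A) (hB : FPW m B) (ht : FPN m t) :
    FPP m (fun ρ => ent (A ρ) (B ρ) (t ρ) (pm (A ρ)) 0 = 1) :=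
  FPP.eqI (entI hA hB ht (pmN hA) (FPN.const 0)) (FPI.const 1)

theorem d_pone (hA : FPW m A) (hB : FPW m B) (ht : FPN m t) :
    FPP m (fun ρ => ent (A ρ) (B ρ) (t ρ) (3 * pm (A ρ)) 0 = 1) :=
  FPP.eqI (entI hA hB ht ((FPN.const 3).mul (pmN hA)) (FPN.const 0)) (FPI.const 1)

theorem d_pstep (hA : FPW m A) (hB : FPW m B) (ht : FPN m t) :
    FPP m (fun ρ => ∀ i < pm (A ρ), i + 1 < pm (A ρ) →
      ent (A ρ) (B ρ) (t ρ) (3 * pm (A ρ)) (i + 1) =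
        ent (A ρ) (B ρ) (t ρ) (3 * pm (A ρ)) i *
          if 0 < ent (A ρ) (B ρ) (t ρ) i i then 4 * pD (A ρ) else 1) :=
  FPP.all (pmN hA) (FPP.imp (FPP.ltN (FPN.v0.add (FPN.const 1)) (pmN hA.weak))
    (FPP.eqI (entI hA.weak hB.weak ht.weak ((FPN.const 3).mul (pmN hA.weak))
      (FPN.v0.add (FPN.const 1))) ((entI hA.weak hB.weak ht.weak
        ((FPN.const 3).mul (pmN hA.weak)) FPN.v0).mul (fac4I hA.weak hB.weak ht.weak FPN.v0))))

theorem d_last (hA : FPW m A) (hB : FPW m B) (ht : FPN m t) (hk : FPN m k) (hn : FPN m n) :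
    FPP m (fun ρ => t ρ + 1 = k ρ → ∀ i < pm (A ρ), ∀ j < pm (A ρ),
      ∑ l ∈ Finset.range (n ρ), ent (A ρ) (B ρ) (t ρ) (2 * pm (A ρ) + i) l *
        pa (A ρ) l j = ent (A ρ) (B ρ) (t ρ) i j) := by
  refine FPP.imp (FPP.eqN (ht.add (FPN.const 1)) hk) (FPP.all (pmN hA)
    (FPP.all (pmN hA.weak) (FPP.eqI ?_ (entI hA.weak.weak hB.weak.weak ht.weak.weak
      FPN.v1 FPN.v0))))
  refine FPI.sum hn.weak.weak (f := fun l σ => ent (A fun i => σ i.succ.succ)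
    (B fun i => σ i.succ.succ) (t fun i => σ i.succ.succ)
    (2 * pm (A fun i => σ i.succ.succ) + (σ 1).length) l *
    pa (A fun i => σ i.succ.succ) l (σ 0).length) ?_
  exact (entI hA.weak.weak.weak hB.weak.weak.weak ht.weak.weak.weak
    (((FPN.const 2).mul (pmN hA.weak.weak.weak)).add FPN.v1.weak) FPN.v0).mul
    (paI hA.weak.weak.weak FPN.v0 FPN.v1)

theorem d_lastz (hA : FPW m A) (hB : FPW m B) (ht : FPN m t) (hk : FPN m k) (hn : FPN m n) :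
    FPP m (fun ρ => t ρ + 1 = k ρ → ∀ i < pm (A ρ), ∀ l < pm (A ρ),
      n ρ ≤ l → ent (A ρ) (B ρ) (t ρ) (2 * pm (A ρ) + i) l = 0) :=
  FPP.imp (FPP.eqN (ht.add (FPN.const 1)) hk) (FPP.all (pmN hA)
    (FPP.all (pmN hA.weak) (FPP.imp (FPP.leN hn.weak.weak FPN.v0)
      (FPP.eqI (entI hA.weak.weak hB.weak.weak ht.weak.weak
        (((FPN.const 2).mul (pmN hA.weak.weak)).add FPN.v1) FPN.v0) (FPI.const 0)))))

theorem d_mem (hA : FPW m A) (hB : FPW m B) (hk : FPN m k) (hn : FPN m n) :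
    FPP m (fun ρ => ∀ j < pm (A ρ), ∑ l ∈ Finset.range (n ρ), ent (A ρ) (B ρ) (k ρ) 1 l *
      pa (A ρ) l j = ent (A ρ) (B ρ) (k ρ) 0 j) := by
  refine FPP.all (pmN hA) (FPP.eqI ?_ (entI hA.weak hB.weak hk.weak (FPN.const 0) FPN.v0))
  refine FPI.sum hn.weak (f := fun l σ => ent (A fun i => σ i.succ) (B fun i => σ i.succ)
    (k fun i => σ i.succ) 1 l * pa (A fun i => σ i.succ) l (σ 0).length) ?_
  exact (entI hA.weak.weak hB.weak.weak hk.weak.weak (FPN.const 1) FPN.v0).mul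
    (paI hA.weak.weak FPN.v0 FPN.v1)

theorem d_memz (hA : FPW m A) (hB : FPW m B) (hk : FPN m k) (hn : FPN m n) :
    FPP m (fun ρ => ∀ l < pm (A ρ), n ρ ≤ l → ent (A ρ) (B ρ) (k ρ) 1 l = 0) :=
  FPP.all (pmN hA) (FPP.imp (FPP.leN hn.weak FPN.v0)
    (FPP.eqI (entI hA.weak hB.weak hk.weak (FPN.const 1) FPN.v0) (FPI.const 0)))

theorem d_markz (hA : FPW m A) (hB : FPW m B) (hk : FPN m k) :
    FPP m (fun ρ => ∀ j < pm (A ρ), 0 < j → ent (A ρ) (B ρ) (k ρ) 3 j = 0) :=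
  FPP.all (pmN hA) (FPP.imp (FPP.ltN (FPN.const 0) FPN.v0)
    (FPP.eqI (entI hA.weak hB.weak hk.weak (FPN.const 3) FPN.v0) (FPI.const 0)))

theorem d_mark (hA : FPW m A) (hB : FPW m B) (hk : FPN m k) :
    FPP m (fun ρ => ∃ c < k ρ, Mark (pm (A ρ)) (pD (A ρ)) (pa (A ρ) (pn (A ρ) - 1)) (k ρ)
      (ent (A ρ) (B ρ)) (ent (A ρ) (B ρ) (k ρ)) c) :=
  FPP.ex hk (markP hA.weak hB.weak hk.weak FPN.v0)

end check

theorem chkC_iff (n m : ℕ) (d : ℤ) (a : ℕ → ℕ → ℤ) (v : ℕ → ℤ) (k : ℕ) (e : ℕ → ℕ → ℕ → ℤ)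
    (f : ℕ → ℕ → ℤ) :
    ChkC n m d a v k e f ↔ (∀ t < k,
      (∀ j < m, ∀ i < j, e t i j = 0) ∧
      (∀ i < m, 0 ≤ e t i i) ∧
      (∀ i < m, ∀ j < m, e t i i = 0 → e t i j = 0) ∧
      (∀ i < m, ∀ j < i, 0 < e t j j → 0 ≤ e t i j ∧ e t i j < e t j j) ∧
      (∀ j < m, ∀ i < j, e t (m + i) j = 0) ∧
      (∀ i < m, ∀ j < i, yge m e t i j = 0) ∧
      e t m 0 = 1 ∧
      (∀ i < m, i + 1 < m → e t (m + (i + 1)) (i + 1) = yge m e t i i) ∧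
      e t (3 * m) 0 = 1 ∧
      (∀ i < m, i + 1 < m →
        e t (3 * m) (i + 1) = e t (3 * m) i * if 0 < e t i i then 4 * d else 1) ∧
      (t + 1 < k → ∀ i < m, ∀ j < m,
        ∑ l ∈ Finset.range m, e t (2 * m + i) l * e (t + 1) l j = e t i j) ∧
      (t + 1 < k → ∀ i < m, ∀ l < m, e (t + 1) l l = 0 → e t (2 * m + i) l = 0) ∧
      (t + 1 = k → ∀ i < m, ∀ j < m,
        ∑ l ∈ Finset.range n, e t (2 * m + i) l * a l j = e t i j) ∧
      (t + 1 = k → ∀ i < m, ∀ l < m, n ≤ l → e t (2 * m + i) l = 0) ∧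
      (t + 1 < k → ∃ i < m, ∃ j < m, e t i j ≠ e (t + 1) i j)) ∧
      (∀ j < m, ∑ l ∈ Finset.range n, f 1 l * a l j = f 0 j) ∧
      (∀ l < m, n ≤ l → f 1 l = 0) ∧
      (∀ j < m, 0 < j → f 3 j = 0) ∧
      ∃ c < k, Mark m d v k e f c := by
  constructor
  · intro h
    exact ⟨fun t ht => ⟨h.tri t ht, h.diag t ht, h.zero t ht, h.red t ht, h.ylow t ht,
      h.ytri t ht, h.yone t ht, h.ystep t ht, h.pone t ht, h.pstep t ht,
      h.link t ht, h.linkz t ht, h.last t ht, h.lastz t ht, h.strict t ht⟩, h.mem, h.memz,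
      h.markz, h.mark⟩
  · rintro ⟨h, h1, h2, h3, h4⟩
    exact ⟨fun t ht => (h t ht).1, fun t ht => (h t ht).2.1, fun t ht => (h t ht).2.2.1,
      fun t ht => (h t ht).2.2.2.1, fun t ht => (h t ht).2.2.2.2.1,
      fun t ht => (h t ht).2.2.2.2.2.1, fun t ht => (h t ht).2.2.2.2.2.2.1,
      fun t ht => (h t ht).2.2.2.2.2.2.2.1, fun t ht => (h t ht).2.2.2.2.2.2.2.2.1,
      fun t ht => (h t ht).2.2.2.2.2.2.2.2.2.1, fun t ht => (h t ht).2.2.2.2.2.2.2.2.2.2.1,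
      fun t ht => (h t ht).2.2.2.2.2.2.2.2.2.2.2.1,
      fun t ht => (h t ht).2.2.2.2.2.2.2.2.2.2.2.2.1,
      fun t ht => (h t ht).2.2.2.2.2.2.2.2.2.2.2.2.2.1,
      fun t ht => (h t ht).2.2.2.2.2.2.2.2.2.2.2.2.2.2, h1, h2, h3, h4⟩

theorem chkCP {A B : (Fin m → List K) → Word} (hA : FPW m A) (hB : FPW m B)
    {k : (Fin m → List K) → ℕ} (hk : FPN m k) :
    FPP m (fun ρ => ChkC (pn (A ρ) - 1) (pm (A ρ)) (pD (A ρ)) (pa (A ρ))
      (pa (A ρ) (pn (A ρ) - 1)) (k ρ) (ent (A ρ) (B ρ)) (ent (A ρ) (B ρ) (k ρ))) := by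
  refine FPP.congr ?_ fun ρ => chkC_iff _ _ _ _ _ _ _ _
  have hA' := hA.weak
  have hB' := hB.weak
  have ht : FPN (C := K) (m + 1) (fun σ => (σ 0).length) := FPN.v0
  have hk' := hk.weak
  have hn : FPN m (fun ρ => pn (A ρ) - 1) := (pnN hA).sub (FPN.const 1)
  have hn' := hn.weak
  refine FPP.and ?_ ((d_mem hA hB hk hn).and ((d_memz hA hB hk hn).and
    ((d_markz hA hB hk).and (d_mark hA hB hk))))
  exact FPP.all hk ((c_tri hA' hB' ht).and ((c_diag hA' hB' ht).and ((c_zero hA' hB' ht).and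
    ((c_red hA' hB' ht).and ((c_ylow hA' hB' ht).and
    ((c_ytri hA' hB' ht).and ((d_yone hA' hB' ht).and ((c_ystep hA' hB' ht).and
    ((d_pone hA' hB' ht).and ((d_pstep hA' hB' ht).and
    ((c_link hA' hB' ht hk').and ((c_linkz hA' hB' ht hk').and ((d_last hA' hB' ht hk' hn').and
    ((d_lastz hA' hB' ht hk' hn').and (c_strict hA' hB' ht hk')))))))))))))))

theorem kCN {A B : (Fin m → List K) → Word} (hA : FPW m A) (hB : FPW m B) :
    FPN m (fun ρ => kC (A ρ) (B ρ)) :=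
  ((hB.len.div ((pmN hA).mul ((widN hA).add (FPN.const 1)))).sub (FPN.const 4)).div
    (((FPN.const 3).mul (pmN hA)).add (FPN.const 1))

/-- **Row MCC**: the predicate of the machine of part 2 is decidable in polynomial time. -/
theorem mcc : MccStmt := by
  classical
  have h : PolyPair (fun z => (fun x y => VbC (x, y)) z.1 z.2) := by
    refine polyPair_of' (g := fun x y => VbC (x, y)) fun m A B hA hB => ?_
    have hk := kCN hA hB
    have h1 : FPP m (fun ρ => VpC (A ρ) (B ρ)) :=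
      (FPP.ltN (FPN.const 0) (pmN hA)).and ((FPP.ltN (FPN.const 0) (pnN hA)).and
        ((FPP.leN ((pnN hA).sub (FPN.const 1)) (pmN hA)).and
        ((FPP.eqN hB.len (((hk.mul (((FPN.const 3).mul (pmN hA)).add (FPN.const 1))).add
          (FPN.const 4)).mul ((pmN hA).mul ((widN hA).add (FPN.const 1))))).and
          (chkCP hA hB hk))))
    exact FPP.decide' h1 fun ρ => by simp [VbC]
  exact h

end Pool.Agent.LAT.H7
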